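import Pool.Agent.Q247.TC.Main

set_option autoImplicit false

/-!
# Congruences modulo 4 and 8 for a limiting two-color partition function

`∑ c(n) q^n = ∑_{m ≥ 0} (-q^{2m+2}; q^2)_∞ q^{2m+1} / (q^{2m+1}; q^2)_∞^2`
(definitions in `Pool.Agent.Q247.TC.Defs`). For all `k, n ≥ 0`:

* `c(2^{2k+3} n + (11·4^k + 1)/3) ≡ 0 (mod 4)`,
* `c(2^{2k+3} n + (17·4^k + 1)/3) ≡ 0 (mod 8)`,
* `c(2^{2k+4} n + (38·4^k + 1)/3) ≡ 0 (mod 4)`.

Proof. A telescoping (`Pool.Agent.Q247.TC.tele`) and the finite triple product give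
`(∑ c(n) q^n) · (1 + 2 ∑_{n ≥ 1} (-1)^n q^{n^2}) = g(q)` with the Hecke-type double sum
`g(q) = ∑_{j ∈ ℤ} ∑_{t ≥ 1, 3 ∤ t} (-1)^{j + ⌊t/3⌋} q^{(3 (|j| + t)^2 - t^2 + 1)/3}`
(`Pool.Agent.Q247.TC.main_cg`). Modulo `8` everything is then read off from the forms `3y²-x²`,
`3x²+3y²-z²`, `3x²+y²`, `6x²+y²`; the first family needs that for `M ≡ 11 (mod 24)` the numbers of
solutions of `3y²-x² = M` (`0 < x < y`) and of `3l²+2t² = M` (`l, t > 0`) have the same parity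
(`Pool.Agent.Q247.TC.Parity.main`).
-/

namespace Pool.Agent.Results.MP_e258d6_nt.AllThreeFamilies

open Pool.Agent.Q247.TC PowerSeries
open scoped PowerSeries.WithPiTopology

/-- the infinite products of the definition converge -/
theorem converges (m : ℕ) : Multipliable (fun j : ℕ => (1 : ℤ⟦X⟧) + X ^ (2 * m + 2 + 2 * j)) ∧
    Multipliable (fun j : ℕ => (1 : ℤ⟦X⟧) - X ^ (2 * m + 1 + 2 * j)) ∧
    oddProd m * invOfUnit (oddProd m) 1 = 1 :=
  ⟨evenProd_mult m, oddProd_mult m, odd_inv m⟩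

/-- the sum of the definition converges -/
theorem hasSum_genFun : HasSum summand genFun := (summ summand_dvd').hasSum

theorem four_pow_mod (k : ℕ) : 4 ^ k % 3 = 1 := by
  induction k with
  | zero => rfl
  | succ k ih => rw [pow_succ]; omega

theorem result : ∀ k n : ℕ,
    (4 : ℤ) ∣ c (2 ^ (2 * k + 3) * n + (11 * 4 ^ k + 1) / 3) ∧
    (8 : ℤ) ∣ c (2 ^ (2 * k + 3) * n + (17 * 4 ^ k + 1) / 3) ∧
    (4 : ℤ) ∣ c (2 ^ (2 * k + 4) * n + (38 * 4 ^ k + 1) / 3) := by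
  intro k n
  have h := four_pow_mod k
  have e3 : (2 : ℤ) ^ (2 * k + 3) = 8 * 4 ^ k := by rw [pow_add, pow_mul]; norm_num; ring
  have e4 : (2 : ℤ) ^ (2 * k + 4) = 16 * 4 ^ k := by rw [pow_add, pow_mul]; norm_num; ring
  have d1 : 3 * ((((11 * 4 ^ k + 1) / 3 : ℕ)) : ℤ) = 11 * 4 ^ k + 1 := by
    have : 3 * ((11 * 4 ^ k + 1) / 3) = 11 * 4 ^ k + 1 := by omega
    exact_mod_cast this
  have d2 : 3 * ((((17 * 4 ^ k + 1) / 3 : ℕ)) : ℤ) = 17 * 4 ^ k + 1 := by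
    have : 3 * ((17 * 4 ^ k + 1) / 3) = 17 * 4 ^ k + 1 := by omega
    exact_mod_cast this
  have d3 : 3 * ((((38 * 4 ^ k + 1) / 3 : ℕ)) : ℤ) = 38 * 4 ^ k + 1 := by
    have : 3 * ((38 * 4 ^ k + 1) / 3) = 38 * 4 ^ k + 1 := by omega
    exact_mod_cast this
  refine ⟨modA (k := k) (m := 24 * n + 11) ?_ (by omega) (by omega),
    modB (k := k) (m := 24 * n + 17) ?_ (by omega),
    modC (k := k) (m := 24 * n + 19) ?_ (by omega)⟩
  · rw [Nat.cast_add, mul_add, d1]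
    push_cast
    rw [e3]; ring
  · rw [Nat.cast_add, mul_add, d2]
    push_cast
    rw [e3]; ring
  · rw [Nat.cast_add, mul_add, d3]
    push_cast
    rw [e4]; ring

end Pool.Agent.Results.MP_e258d6_nt.AllThreeFamilies
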